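import Pool.Agent.Helper69.HA.Defs2
import Pool.Agent.Helper72.HA.Names
import Pool.Agent.Helper46.HA.CFacts
import Pool.Agent.Helper7.HA.Eval

/-!
# Project HA, module HA-10: density facts
-/

set_option autoImplicit false
set_option linter.unusedSectionVars false

namespace Pool.Agent.Helper69.HA

open Set Pool.Agent.Helper33.HM Pool.Agent.Helper33.HMG Pool.Agent.Helper32.HB
open Pool.Agent.Helper52.MA (El IsOmega1 setsM pairN numN on wN setN st)

universe u

section Forcing

variable {I : Type u} [LinearOrder I] [WellFoundedLT I] {Ω : Type} [LinearOrder Ω]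
  {e : Ω → ℕ → Ω → Prop} {code : I → Ω → Set (Cond I Ω)}

/-- A condition with a new datum at `i` is stronger if the new elements respect the promises. -/
theorem phi_put_le {p : PC e code} {i : I} {x : Dat Ω} (hx : x.Le (p.f i))
    (h : ∀ ξ n δ, x.φ ξ = some n → (p.f i).φ ξ = none → ¬ (p.f i).F δ n) : p.put i x ≤ p := by
  rw [PC.le_iff]
  intro j
  rw [PC.put_f]
  by_cases hj : j = i
  · subst hj
    rw [if_pos rfl]
    exact ⟨hx, fun ξ n δ h1 h2 h3 => (h ξ n δ h1 h2 h3).elim⟩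
  · rw [if_neg hj]
    exact ⟨Dat.Le.refl _, fun ξ n δ h1 h2 _ => by rw [h2] at h1; cases h1⟩

theorem exists_phi (p : PC e code) (i : I) (ξ : Ω) :
    ∃ q, q ≤ p ∧ ∃ n, (q.f i).φ ξ = some n := by
  classical
  rcases hv : (p.f i).φ ξ with _ | n
  · obtain ⟨n, hn⟩ := ((p.f i).finF.image Prod.snd).exists_notMem
    have hn' : ∀ δ, ¬ (p.f i).F δ n := fun δ h => hn ⟨(δ, n), h, rfl⟩
    let x : Dat Ω := ⟨(p.f i).c, fun ζ => if ζ = ξ then some n else (p.f i).φ ζ, (p.f i).F,
      (p.f i).finc, ((p.f i).finφ.insert ξ).subset fun z hz => by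
        by_cases h : z = ξ
        · left; exact h
        · right; simpa [h] using hz, (p.f i).finF⟩
    refine ⟨p.put i x, phi_put_le ⟨fun _ _ _ h => h, fun ζ m h => ?_, fun _ _ h => h⟩ ?_, n, ?_⟩
    · have : ζ ≠ ξ := by
        rintro rfl
        rw [hv] at h
        cases h
      simp only [x, if_neg this]
      exact h
    · intro ζ m δ h1 h2 h3
      by_cases h : ζ = ξ
      · simp only [x, if_pos h] at h1
        rw [← Option.some.inj h1] at h3
        exact hn' δ h3
      · simp only [x, if_neg h] at h1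
        rw [h2] at h1
        cases h1
    · rw [PC.put_f, if_pos rfl]
      simp only [x, if_true]
  · exact ⟨p, le_rfl, n, hv⟩

theorem exists_F (p : PC e code) (i : I) (δ : Ω) (n : ℕ) : ∃ q, q ≤ p ∧ (q.f i).F δ n ∧
    (∀ k, (q.f k).c = (p.f k).c ∧ (q.f k).φ = (p.f k).φ) := by
  classical
  let x : Dat Ω := ⟨(p.f i).c, (p.f i).φ, fun δ' n' => (p.f i).F δ' n' ∨ (δ' = δ ∧ n' = n),
    (p.f i).finc, (p.f i).finφ, ((p.f i).finF.insert (δ, n)).subset fun z hz => by
      rcases hz with hz | ⟨h1, h2⟩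
      · right; exact hz
      · left; exact Prod.ext h1 h2⟩
  refine ⟨p.put i x, phi_put_le ⟨fun _ _ _ h => h, fun _ _ h => h, fun _ _ h => Or.inl h⟩ ?_,
    ?_, ?_⟩
  · intro ζ m δ' h1 h2 _
    have h3 : (p.f i).φ ζ = some m := h1
    rw [h2] at h3
    cases h3
  · rw [PC.put_f, if_pos rfl]
    exact Or.inr ⟨rfl, rfl⟩
  · intro k
    rw [PC.put_f]
    by_cases hk : k = i
    · subst hk
      rw [if_pos rfl]
      exact ⟨rfl, rfl⟩
    · rw [if_neg hk]
      exact ⟨rfl, rfl⟩

theorem exists_val' (p : PC e code) (i : I) (δ : Ω) (m : ℕ) :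
    ∃ q, q ≤ p ∧ ∃ a k b, q ∈ Dv i δ k b ∧ (q.f k).c δ m = some a := by
  classical
  obtain ⟨q, hq, -, k, b, hk⟩ := Dv_dense p i δ
  rcases hv : (q.f k).c δ m with _ | a
  · let x : Dat Ω := ⟨fun δ' m' => if δ' = δ ∧ m' = m then some 0 else (q.f k).c δ' m',
      (q.f k).φ, (q.f k).F, ((q.f k).finc.insert (δ, m)).subset fun z hz => by
        by_cases h : z.1 = δ ∧ z.2 = m
        · left; exact Prod.ext h.1 h.2
        · right; simpa [h] using hz, (q.f k).finφ, (q.f k).finF⟩
    have hle : q.put k x ≤ q := by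
      refine phi_put_le ⟨fun δ' m' a h => ?_, fun _ _ h => h, fun _ _ h => h⟩ ?_
      · have : ¬ (δ' = δ ∧ m' = m) := by
          rintro ⟨rfl, rfl⟩
          rw [hv] at h
          cases h
        simp only [x, if_neg this]
        exact h
      · intro ζ m' δ' h1 h2 _
        have h3 : (q.f k).φ ζ = some m' := h1
        rw [h2] at h3
        cases h3
    refine ⟨q.put k x, hle.trans hq, 0, k, b, RO.mem_lower hle hk, ?_⟩
    rw [PC.put_f, if_pos rfl]
    simp only [x, and_self, if_true]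
  · exact ⟨q, hq, a, k, b, hk, hv⟩

theorem exists_ce [WellFoundedLT Ω] (he : EnumL (fun x y => x < y) e) (p : PC e code) (i : I)
    (δ : Ω) (o : Ω ⊕ ℕ) : ∃ q, q ≤ p ∧ ∃ b, CE q i δ o b := by
  obtain ⟨q, hq, b, hb⟩ := exists_eval he (fun _ _ => 0) i δ o p
  exact ⟨q, hq.le, b, hb⟩

theorem phi_fin {q r : PC e code} (h : r ≤ q) {i : I} {δ ξ : Ω} {n : ℕ} (hF : (q.f i).F δ n)
    (hφ : (r.f i).φ ξ = some n) (hce : CE r i δ (.inl ξ) true) : (q.f i).φ ξ = some n := by
  have h1 := PC.le_iff.1 h i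
  rcases hv : (q.f i).φ ξ with _ | n'
  · exact absurd (CE_unique hce (h1.2 ξ n δ hφ hv hF)) (by simp)
  · rw [← hφ, h1.1.φ ξ n' hv]

end Forcing

end Pool.Agent.Helper69.HA
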